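import Mathlib
import Pool.Agent.N604.MW.Stm12
import Pool.Agent.N232.KW_DL1

/-!
# Project AK (helper604), part KL1 (helper164): the mean of the product over the small frequencies

Adapted from `Pool/Agent/N218/AD_AL1.lean` (helper218).
-/

set_option autoImplicit false

namespace Pool.Agent.N164.AK

open Finset MeasureTheory Pool.Agent.N604.MW
open Pool.Agent.N277.KV (lintegral_pi_prod jensen_sq)
open Pool.Agent.N232.KW (int_rpow)
open scoped ENNReal

instance (d : ℕ) : IsProbabilityMeasure (GM d) := by unfold GM; infer_instance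

/-- the box -/
def W1 (d : ℕ) (B : ℝ) : Set (Fin d → ℝ) := {θ | ∀ l, |θ l| ≤ B}

lemma W1_meas (d : ℕ) (B : ℝ) : MeasurableSet (W1 d B) := by
  have : W1 d B = ⋂ l, {θ : Fin d → ℝ | |θ l| ≤ B} := by ext θ; simp [W1]
  rw [this]
  exact MeasurableSet.iInter fun l => measurableSet_le (by fun_prop) measurable_const

/-- the absolute value on the box -/
noncomputable def fa (d ν : ℕ) (c B : ℝ) (t : ℝ) (θ : Fin d → ℝ) : ℝ≥0∞ :=
  (W1 d B).indicator (fun θ => ENNReal.ofReal ‖SG (BX ν) (pk d c θ) t‖) θ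

lemma SG_measurable (d ν : ℕ) (c : ℝ) :
    Measurable fun p : (Fin d → ℝ) × ℝ => SG (BX ν) (pk d c p.1) p.2 := by
  refine Continuous.measurable ?_
  unfold SG pk e
  fun_prop

lemma fa_meas2 (d ν : ℕ) (c B : ℝ) : Measurable fun p : (Fin d → ℝ) × ℝ => fa d ν c B p.2 p.1 := by
  have h : (fun p : (Fin d → ℝ) × ℝ => fa d ν c B p.2 p.1) = (Prod.fst ⁻¹' W1 d B).indicator
      (fun p : (Fin d → ℝ) × ℝ => ENNReal.ofReal ‖SG (BX ν) (pk d c p.1) p.2‖) := by
    funext p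
    rfl
  rw [h]
  exact (SG_measurable d ν c).norm.ennreal_ofReal.indicator (measurable_fst (W1_meas d B))

lemma fa_meas (d ν : ℕ) (c B t : ℝ) : Measurable (fa d ν c B t) :=
  Measurable.comp (g := fun p : (Fin d → ℝ) × ℝ => fa d ν c B p.2 p.1) (f := fun a => (a, t))
    (fa_meas2 d ν c B) (by fun_prop)

/-- the mean of the absolute value -/
noncomputable def ha (d ν : ℕ) (c B : ℝ) (t : ℝ) : ℝ≥0∞ := ∫⁻ θ, fa d ν c B t θ ∂(GM d)

lemma box_meas (s d : ℕ) (B : ℝ) : MeasurableSet {θ : Fin s → Fin d → ℝ | ∀ i l, |θ i l| ≤ B} := by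
  have : {θ : Fin s → Fin d → ℝ | ∀ i l, |θ i l| ≤ B} =
      ⋂ i, ⋂ l, {θ : Fin s → Fin d → ℝ | |θ i l| ≤ B} := by ext θ; simp
  rw [this]
  exact MeasurableSet.iInter fun i => MeasurableSet.iInter fun l =>
    measurableSet_le (by fun_prop) measurable_const

theorem swap_eq (s d ν : ℕ) (c : Fin s → ℝ) (B : ℝ) (I : Set ℝ) :
    ∫⁻ θ in {θ : Fin s → Fin d → ℝ | ∀ i l, |θ i l| ≤ B},
      (∫⁻ t in I, ENNReal.ofReal (∏ i, ‖SG (BX ν) (pk d (c i) (θ i)) t‖)) ∂(GMs s d) =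
    ∫⁻ t in I, ∏ i : Fin s, ha d ν (c i) B t := by
  have h1 : ∀ θ : Fin s → Fin d → ℝ, {θ : Fin s → Fin d → ℝ | ∀ i l, |θ i l| ≤ B}.indicator
      (fun θ => ∫⁻ t in I, ENNReal.ofReal (∏ i, ‖SG (BX ν) (pk d (c i) (θ i)) t‖)) θ =
      ∫⁻ t in I, ∏ i, fa d ν (c i) B t (θ i) := by
    intro θ
    by_cases hθ : θ ∈ {θ : Fin s → Fin d → ℝ | ∀ i l, |θ i l| ≤ B}
    · rw [Set.indicator_of_mem hθ]
      refine lintegral_congr fun t => ?_
      rw [ENNReal.ofReal_prod_of_nonneg fun i _ => norm_nonneg _]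
      refine Finset.prod_congr rfl fun i _ => ?_
      unfold fa
      rw [Set.indicator_of_mem (show θ i ∈ W1 d B from hθ i)]
    · rw [Set.indicator_of_notMem hθ]
      have hex : ∃ i, θ i ∉ W1 d B := by
        by_contra hcon
        push Not at hcon
        exact hθ fun i l => hcon i l
      obtain ⟨i, hi⟩ := hex
      symm
      have h2 : ∀ t, ∏ i, fa d ν (c i) B t (θ i) = 0 := by
        intro t
        apply Finset.prod_eq_zero (Finset.mem_univ i)
        unfold fa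
        rw [Set.indicator_of_notMem hi]
      simp only [h2, lintegral_zero]
  rw [← lintegral_indicator (box_meas s d B)]
  simp only [h1]
  rw [lintegral_lintegral_swap]
  · refine lintegral_congr fun t => ?_
    unfold GMs ha
    exact lintegral_pi_prod (fun _ : Fin s => GM d) (fun i => fa d ν (c i) B t) fun i =>
      fa_meas d ν (c i) B t
  · refine Measurable.aemeasurable ?_
    refine Finset.measurable_prod _ fun i _ => ?_
    exact Measurable.comp (g := fun p : (Fin d → ℝ) × ℝ => fa d ν (c i) B p.2 p.1)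
      (f := fun p : (Fin s → Fin d → ℝ) × ℝ => (p.1 i, p.2)) (fa_meas2 d ν (c i) B) (by fun_prop)

lemma ha_le_sqrt (d ν : ℕ) (c B t : ℝ) (M : ℝ) (hM0 : 0 ≤ M)
    (hM : ∫⁻ θ in {θ : Fin d → ℝ | ∀ l, |θ l| ≤ B},
      ENNReal.ofReal (‖SG (BX ν) (pk d c θ) t‖ ^ 2) ∂(GM d) ≤ ENNReal.ofReal (M ^ 2)) :
    ha d ν c B t ≤ ENNReal.ofReal M := by
  have h1 : ha d ν c B t ^ 2 ≤ ENNReal.ofReal M ^ 2 := by
    refine (jensen_sq _ _ (fa_meas d ν c B t)).trans ?_
    rw [← ENNReal.ofReal_pow hM0]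
    refine le_trans (le_of_eq ?_) hM
    change _ = ∫⁻ θ in W1 d B, ENNReal.ofReal (‖SG (BX ν) (pk d c θ) t‖ ^ 2) ∂(GM d)
    rw [← lintegral_indicator (W1_meas d B)]
    refine lintegral_congr fun θ => ?_
    by_cases hθ : θ ∈ W1 d B
    · rw [Set.indicator_of_mem hθ, fa, Set.indicator_of_mem hθ, ENNReal.ofReal_pow (norm_nonneg _)]
    · rw [Set.indicator_of_notMem hθ, fa, Set.indicator_of_notMem hθ, zero_pow two_ne_zero]
  exact (ENNReal.pow_le_pow_left_iff two_ne_zero).1 h1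

theorem kl1 (h : S_KL2) : S_KL1 := by
  intro d s c B δ hd hds hc hB hδ hδ1
  choose C' hC' H' using fun i => h d (c i) B hd (hc i) hB
  obtain ⟨C, hCdef⟩ : ∃ C, C = 1 + ∑ i, C' i := ⟨_, rfl⟩
  have hC : 0 < C := by
    rw [hCdef]
    have : 0 ≤ ∑ i, C' i := Finset.sum_nonneg fun i _ => (hC' i).le
    linarith
  have hCi : ∀ i, C' i ≤ C := by
    intro i
    rw [hCdef]
    have := Finset.single_le_sum (f := C') (fun i _ => (hC' i).le) (Finset.mem_univ i)
    linarith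
  set k : ℝ := (d : ℝ) + 1 with hk
  have hkc : ((d + 1 : ℕ) : ℝ) = k := by rw [hk]; push_cast; ring
  have hk0 : (0 : ℝ) < k := by positivity
  have hksr : k < s := by
    rw [← hkc]
    exact_mod_cast hds
  set r : ℝ := (s : ℝ) / k with hr
  have hr1 : 1 < r := by
    rw [hr, lt_div_iff₀ hk0]
    linarith
  set A : ℝ := Real.sqrt (2 * C) ^ s with hA
  have hA0 : 0 < A := by positivity
  have hr1' : 0 < r - 1 := by linarith
  refine ⟨2 * (A * (1 / (r - 1))), by positivity, ?_⟩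
  intro ν
  rw [swap_eq s d ν c B, hkc]
  set η0 : ℝ := (2 : ℝ) ^ ((ν : ℝ) * (-k + δ)) with hη0
  set ηm : ℝ := (2 : ℝ) ^ (-(k * ν / 2)) with hηm
  have hη0p : 0 < η0 := Real.rpow_pos_of_pos two_pos _
  have hηm1 : ηm ≤ 1 := by
    rw [hηm]
    refine Real.rpow_le_one_of_one_le_of_nonpos one_le_two ?_
    have : 0 ≤ k * ν / 2 := by positivity
    linarith
  have hν0 : (0 : ℝ) < (ν : ℝ) + 1 := by positivity
  have hpt : ∀ t ∈ Arc η0 ηm, ∏ i : Fin s, ha d ν (c i) B t ≤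
      ENNReal.ofReal ((A * ((ν : ℝ) + 1) ^ (2 * s)) * |t| ^ (-r)) := by
    intro t ht
    have ht0 : 0 < |t| := hη0p.trans_le ht.1
    have ht1 : |t| ≤ 1 := ht.2.trans hηm1
    set D : ℝ := |t| ^ (-(1 / k)) with hD
    have hD0 : 0 < D := Real.rpow_pos_of_pos ht0 _
    have hD2 : D ^ 2 = |t| ^ (-(2 / k)) := by
      rw [hD, ← Real.rpow_natCast, ← Real.rpow_mul ht0.le]
      congr 1
      push_cast
      ring
    have hν : (2 : ℝ) ^ ν ≤ |t| ^ (-(2 / k)) := by
      have e1 : ηm ^ (-(2 / k)) ≤ |t| ^ (-(2 / k)) := by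
        refine Real.rpow_le_rpow_of_nonpos ht0 ht.2 ?_
        have : 0 < 2 / k := by positivity
        linarith
      have e2 : ηm ^ (-(2 / k)) = (2 : ℝ) ^ ν := by
        rw [hηm, ← Real.rpow_mul zero_le_two, ← Real.rpow_natCast]
        congr 1
        field_simp
      rwa [e2] at e1
    have h1 : ∀ i, ha d ν (c i) B t ≤
        ENNReal.ofReal (Real.sqrt (2 * C) * ((ν : ℝ) + 1) ^ 2 * D) := by
      intro i
      refine ha_le_sqrt d ν (c i) B t _ (by positivity) ?_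
      refine (H' i ν t ht0 ht1).trans (ENNReal.ofReal_le_ofReal ?_)
      rw [mul_pow, mul_pow, Real.sq_sqrt (by positivity), hD2]
      have hpos : 0 ≤ |t| ^ (-(2 / k)) := Real.rpow_nonneg ht0.le _
      calc C' i * ((ν : ℝ) + 1) ^ 4 * ((2 : ℝ) ^ ν + |t| ^ (-(2 / k)))
          ≤ C * ((ν : ℝ) + 1) ^ 4 * (|t| ^ (-(2 / k)) + |t| ^ (-(2 / k))) := by
            have := hCi i
            gcongr
        _ = 2 * C * (((ν : ℝ) + 1) ^ 2) ^ 2 * |t| ^ (-(2 / k)) := by ring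
    have h2 : ∏ i : Fin s, ha d ν (c i) B t ≤
        ENNReal.ofReal ((Real.sqrt (2 * C) * ((ν : ℝ) + 1) ^ 2 * D) ^ s) := by
      rw [ENNReal.ofReal_pow (by positivity)]
      refine (Finset.prod_le_prod' fun i _ => h1 i).trans (le_of_eq ?_)
      rw [Finset.prod_const, Finset.card_univ, Fintype.card_fin]
    refine h2.trans (ENNReal.ofReal_le_ofReal (le_of_eq ?_))
    rw [mul_pow, mul_pow, hA, ← pow_mul]
    congr 1
    rw [hD, ← Real.rpow_natCast, ← Real.rpow_mul ht0.le]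
    congr 1
    rw [hr]
    ring
  refine ((setLIntegral_mono' ?_ hpt).trans (int_rpow η0 ηm r (A * ((ν : ℝ) + 1) ^ (2 * s)) hη0p hr1
    (by positivity))).trans (ENNReal.ofReal_le_ofReal (le_of_eq ?_))
  · exact measurableSet_Arc _ _
  · have e1 : η0 ^ (1 - r) = (2 : ℝ) ^ ((ν : ℝ) * (((s : ℝ) - k) - δ * (((s : ℝ) - k) / k))) := by
      rw [hη0, ← Real.rpow_mul zero_le_two]
      congr 1
      rw [hr]
      field_simp
      ring
    rw [e1]
    ring

end Pool.Agent.N164.AK
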