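import Pool.Agent.N20.EW.Stm

/-!
# The weight conjecture: from blocks to class functions

The orbit counting is taken from `Pool/Agent/Y63/NV/Base48.lean` (after helper48, helper63), the
families of blocks from `Pool/Agent/N85/WM/Modp.lean`.
-/

set_option autoImplicit false

open scoped Classical BigOperators

noncomputable section

namespace Pool.Agent.N164.EW

open Pool.Agent.N20.EW Pool.Agent.Y63.NV Pool.Agent.N85.WM
open Pool.Agent.Y63.NV.B48B (CF rs card_fib orbit_sum nw_conj)
open Pool.Agent.Y63.AWC (IsIrreducibleCharacter pSubgroupSetoid)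

/-- if two finite families of blocks have the same number of members equal to `B`, for every block
`B`, then they have the same number of members with the value `c` at `z` -/
theorem val_of_blk {F G : Type} [Field F] [Group G] {X Y : Type} [Finite X] [Finite Y]
    (a : X → (G → F) → F) (b : Y → (G → F) → F) (ha : ∀ x, IsBlock (a x)) (hb : ∀ y, IsBlock (b y))
    (h : ∀ B : (G → F) → F, IsBlock B → Nat.card {x // BEq (a x) B} = Nat.card {y // BEq (b y) B})
    {z : G → F} (hz : IsClassFun z) (c : F) :
    Nat.card {x // a x z = c} = Nat.card {y // b y z = c} := by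
  have : Fintype X := Fintype.ofFinite X
  have : Fintype Y := Fintype.ofFinite Y
  let rX : X → (CF G F → F) := fun x => rs (a x)
  let rY : Y → (CF G F → F) := fun y => rs (b y)
  let S : Finset (CF G F → F) := Finset.univ.image rX ∪ Finset.univ.image rY
  have hSX : ∀ x, rX x ∈ S := fun x =>
    Finset.mem_union_left _ (Finset.mem_image_of_mem _ (Finset.mem_univ _))
  have hSY : ∀ y, rY y ∈ S := fun y =>
    Finset.mem_union_right _ (Finset.mem_image_of_mem _ (Finset.mem_univ _))
  have hS : ∀ β ∈ S, ∃ B : (G → F) → F, IsBlock B ∧ rs B = β := by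
    intro β hβ
    rcases Finset.mem_union.1 hβ with h | h
    · obtain ⟨x, -, rfl⟩ := Finset.mem_image.1 h
      exact ⟨a x, ha x, rfl⟩
    · obtain ⟨y, -, rfl⟩ := Finset.mem_image.1 h
      exact ⟨b y, hb y, rfl⟩
  let zC : CF G F := ⟨z, hz⟩
  have e1 : Nat.card {x // a x z = c} =
      ∑ β ∈ S, if β zC = c then Nat.card {x // rX x = β} else 0 :=
    card_fib rX S hSX (fun β => β zC = c)
  have e2 : Nat.card {y // b y z = c} =
      ∑ β ∈ S, if β zC = c then Nat.card {y // rY y = β} else 0 :=
    card_fib rY S hSY (fun β => β zC = c)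
  rw [e1, e2]
  refine Finset.sum_congr rfl fun β hβ => ?_
  by_cases hc : β zC = c
  · rw [if_pos hc, if_pos hc]
    obtain ⟨B, hB, rfl⟩ := hS β hβ
    have e : ∀ {W : Type} (d : W → (G → F) → F), Nat.card {w // rs (d w) = (rs B : CF G F → F)} =
        Nat.card {w // BEq (d w) B} := by
      intro W d
      refine Nat.card_congr (Equiv.subtypeEquivRight fun w => ?_)
      constructor
      · intro h f hf
        exact congrFun h ⟨f, hf⟩
      · intro h
        funext f
        exact h f.1 f.2
    exact (e a).trans ((h B hB).trans (e b).symm)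
  · rw [if_neg hc, if_neg hc]

/-- the number of the irreducible traces on which `z` acts as `c` -/
theorem lz_eq {F : Type} [Field F] [IsAlgClosed F] {H : Type} [Group H] [Finite H] {z : H → F}
    (hz : IsClassFun z) (c : F) :
    Lz z c = Nat.card {φ : {φ : H → F // IsIrrTrace φ} // blkOf φ z = c} :=
  Nat.card_congr
    { toFun := fun φ => ⟨⟨φ.1, φ.2.1⟩, (blkOf_iff ⟨φ.1, φ.2.1⟩ hz c).mp φ.2.2⟩
      invFun := fun φ => ⟨φ.1.1, φ.1.2, (blkOf_iff φ.1 hz c).mpr φ.2⟩
      left_inv := fun φ => rfl
      right_inv := fun φ => rfl }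

/-- the number of the classes of weights with the value `c` at `z` -/
theorem ws_eq (p : ℕ) {F : Type} [Field F] (red : integralClosure ℤ ℂ →+* F) {H : Type} [Group H]
    [Finite H] (z : H → F) (c : F) :
    Nat.card {y : YS p H // cvS red y z = c} = ∑ᶠ q : Quotient (pSubgroupSetoid p H),
      Nw p red (q.out.1.subgroupOf (Subgroup.normalizer (q.out.1 : Set H))) (fun x => z x) c := by
  have h := card_sig (fun q : Quotient (pSubgroupSetoid p H) => YW p q.out.1)
    (fun y => cvS red y z = c)
  refine Eq.trans h ?_
  refine finsum_congr fun q => ?_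
  unfold Nw
  exact Nat.card_congr
    { toFun := fun χ => ⟨χ.1.1, χ.1.2, χ.2⟩
      invFun := fun χ => ⟨⟨χ.1, χ.2.1⟩, χ.2.2⟩
      left_inv := fun χ => rfl
      right_inv := fun χ => rfl }

/-- orbit counting -/
theorem wz_eq (p : ℕ) {F : Type} [Field F] (red : integralClosure ℤ ℂ →+* F) {G : Type} [Group G]
    [Finite G] {z : G → F} (hz : IsClassFun z) (c : F) :
    Wz p red z c = Nat.card G * ∑ᶠ q : Quotient (pSubgroupSetoid p G),
      Nw p red (q.out.1.subgroupOf (Subgroup.normalizer (q.out.1 : Set G))) (fun x => z x) c := by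
  let P : Type := {Q : Subgroup G // IsPGroup p Q}
  have hP : Finite P := inferInstanceAs (Finite {Q : Subgroup G // IsPGroup p Q})
  have : Fintype P := Fintype.ofFinite P
  let _act : MulAction G P :=
    { smul := fun g Q => ⟨Q.1.map (MulAut.conj g).toMonoidHom, Q.2.map _⟩
      one_smul := fun Q => by
        apply Subtype.ext
        change Q.1.map (MulAut.conj (1 : G)).toMonoidHom = Q.1
        ext x
        simp [Subgroup.mem_map]
      mul_smul := fun g h Q => by
        apply Subtype.ext
        change Q.1.map (MulAut.conj (g * h)).toMonoidHom =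
          (Q.1.map (MulAut.conj h).toMonoidHom).map (MulAut.conj g).toMonoidHom
        rw [Subgroup.map_map]
        congr 1
        ext x
        simp [mul_assoc] }
  have hsm : ∀ (g : G) (Q : P), (g • Q).1 = Q.1.map (MulAut.conj g).toMonoidHom := fun _ _ => rfl
  have h6 := orbit_sum (G := G) (Ω := P) (pSubgroupSetoid p G) (by
    intro Q R
    change (∃ g : G, R.1 = Q.1.map (MulAut.conj g).toMonoidHom) ↔ _
    constructor
    · rintro ⟨g, hg⟩
      exact ⟨g, Subtype.ext (by rw [hsm, hg])⟩
    · rintro ⟨g, hg⟩
      exact ⟨g, by rw [← hg, hsm]⟩)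
    (fun Q => Nw p red (Q.1.subgroupOf (Subgroup.normalizer (Q.1 : Set G))) (fun x => z x) c) (by
      rintro Q R ⟨g, hg⟩
      change Nw p red (Q.1.subgroupOf (Subgroup.normalizer (Q.1 : Set G))) (fun x => z x) c =
        Nw p red (R.1.subgroupOf (Subgroup.normalizer (R.1 : Set G))) (fun x => z x) c
      rw [hg]
      exact nw_conj p red hz c g Q.1)
  have hstab : ∀ Q : P, Nat.card (MulAction.stabilizer G Q) =
      Nat.card (Subgroup.normalizer (Q.1 : Set G)) := by
    intro Q
    refine Nat.card_congr (Equiv.subtypeEquivRight fun g => ?_)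
    rw [MulAction.mem_stabilizer_iff, Subtype.ext_iff, hsm, Subgroup.mem_normalizer_iff]
    constructor
    · intro h3 x
      constructor
      · intro hx
        have : g * x * g⁻¹ ∈ Q.1.map (MulAut.conj g).toMonoidHom := ⟨x, hx, rfl⟩
        rw [h3] at this
        exact this
      · intro hx
        have hx' : g * x * g⁻¹ ∈ Q.1 := hx
        rw [← h3] at hx'
        obtain ⟨y, hy, hyx⟩ := hx'
        have : g * y * g⁻¹ = g * x * g⁻¹ := hyx
        have : y = x := by simpa using this
        rwa [← this]
    · intro h3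
      ext x
      constructor
      · rintro ⟨y, hy, rfl⟩
        exact (h3 y).mp hy
      · intro hx
        refine ⟨g⁻¹ * x * g, (h3 _).mpr ?_, ?_⟩
        · have : g * (g⁻¹ * x * g) * g⁻¹ = x := by group
          rw [this]
          exact hx
        · change g * (g⁻¹ * x * g) * g⁻¹ = x
          group
  have e9 : Wz p red z c = ∑ Q : P, Nat.card (Subgroup.normalizer (Q.1 : Set G)) *
      Nw p red (Q.1.subgroupOf (Subgroup.normalizer (Q.1 : Set G))) (fun x => z x) c := by
    unfold Wz
    have : Fintype (Subgroup G) := Fintype.ofFinite _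
    rw [finsum_eq_sum_of_fintype, ← Finset.sum_filter]
    exact Finset.sum_subtype (p := fun Q : Subgroup G => IsPGroup p Q)
      (Finset.univ.filter fun Q : Subgroup G => IsPGroup p Q) (by simp)
      (fun Q => Nat.card ↥(Subgroup.normalizer (Q : Set G)) *
          Nw p red (Q.subgroupOf (Subgroup.normalizer (Q : Set G))) (fun x => z x) c)
  rw [e9]
  refine Eq.trans (Finset.sum_congr rfl fun Q _ => ?_) h6.symm
  rw [hstab Q]

/-- **From the blocks to the class functions.** -/
theorem BLW : S_BLW := by
  intro p _ F _ _ _ red H _ _ h z hz c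
  rw [wz_eq p red hz c, ← ws_eq p red z c, lz_eq hz c]
  congr 1
  refine val_of_blk (fun φ : {φ : H → F // IsIrrTrace φ} => blkOf φ)
    (fun y : YS p H => cvS red y) blkOf_block (cvS_block red) (fun B hB => ?_) hz c
  rw [← numIrrBlock_eq, ← numWts_eq]
  exact h B hB

end Pool.Agent.N164.EW
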